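import Pool.Agent.Q101.Strongly

set_option autoImplicit false

open scoped ENNReal NNReal

namespace Pool.Agent.Results.MP_3dc8bf_an.QuasiNotStrongly

section Defs

variable (𝕜 : Type) [RCLike 𝕜]

/-- `‖(x_j)‖_{w,p}`: the supremum over `φ` in the unit ball of the dual of
`(∑_j |φ(x_j)|^p)^{1/p}`, as an extended nonnegative number. -/
noncomputable def weakNorm {E : Type} [NormedAddCommGroup E] [NormedSpace 𝕜 E] (p : ℝ)
    (x : ℕ → E) : ℝ≥0∞ :=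
  ⨆ φ : {φ : E →L[𝕜] 𝕜 // ‖φ‖ ≤ 1}, (∑' j, ‖φ.1 (x j)‖ₑ ^ p) ^ (1 / p)

variable {n : ℕ} {E : Fin n → Type} [∀ i, NormedAddCommGroup (E i)] [∀ i, NormedSpace 𝕜 (E i)]
  {F : Type} [NormedAddCommGroup F] [NormedSpace 𝕜 F]

/-- `T` is `k`-absolutely `p`-summing. -/
def IsKSumming (p : ℝ) (k : Fin n) (T : ContinuousMultilinearMap 𝕜 E F) : Prop :=
  ∃ C : ℝ≥0, ∀ (a : ∀ i, E i) (x : ℕ → E k), weakNorm 𝕜 p x < ∞ →
    (∑' j, ‖T (Function.update a k (x j))‖ₑ ^ p) ^ (1 / p) ≤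
      C * weakNorm 𝕜 p x * ∏ i ∈ Finset.univ.erase k, ‖a i‖ₑ

/-- `T` is quasi-absolutely `p`-summing: `k`-absolutely `p`-summing for every `k`. -/
def IsQuasiSumming (p : ℝ) (T : ContinuousMultilinearMap 𝕜 E F) : Prop :=
  ∀ k, IsKSumming 𝕜 p k T

/-- `T` is strongly multiple `p`-summing. -/
def IsStronglyMultipleSumming (p : ℝ) (T : ContinuousMultilinearMap 𝕜 E F) : Prop :=
  ∃ C : ℝ≥0, ∀ (m : ℕ) (x : ∀ k, Fin m → E k),
    (∑ j : Fin n → Fin m, ‖T (fun k => x k (j k))‖ₑ ^ p) ^ (1 / p) ≤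
      C * ⨆ φ : {φ : ContinuousMultilinearMap 𝕜 E 𝕜 // ‖φ‖ ≤ 1},
        (∑ j : Fin n → Fin m, ‖φ.1 (fun k => x k (j k))‖ₑ ^ p) ^ (1 / p)

end Defs

open Q101.Strongly in
/-- For both scalar fields and every real `p > 4` there is a bounded bilinear map between Banach
spaces that is quasi-absolutely `p`-summing but not strongly multiple `p`-summing. -/
theorem result (𝕜 : Type) [RCLike 𝕜] (p : ℝ) (hp : 4 < p) :
    ∃ (E : Fin 2 → Type) (_ : ∀ i, NormedAddCommGroup (E i)) (_ : ∀ i, NormedSpace 𝕜 (E i))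
      (F : Type) (_ : NormedAddCommGroup F) (_ : NormedSpace 𝕜 F),
      (∀ i, CompleteSpace (E i)) ∧ CompleteSpace F ∧
      ∃ T : ContinuousMultilinearMap 𝕜 E F,
        IsQuasiSumming 𝕜 p T ∧ ¬ IsStronglyMultipleSumming 𝕜 p T := by
  have hp0 : 0 < p := by linarith
  let P : ℝ≥0∞ := ENNReal.ofReal p
  have hP : P.toReal = p := ENNReal.toReal_ofReal hp0.le
  have hfact : Fact (1 ≤ P) := ⟨by
    change 1 ≤ ENNReal.ofReal p
    rw [ENNReal.one_le_ofReal]; linarith⟩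
  refine ⟨fun _ => L 𝕜 P, inferInstance, inferInstance, L 𝕜 P, inferInstance, inferInstance,
    fun _ => inferInstance, inferInstance, T 𝕜 P, ?_, ?_⟩
  · have hW : ∀ (x : ℕ → L 𝕜 P) (i : ℕ), ∑' j, ‖x j i‖ₑ ^ p ≤ weakNorm 𝕜 p x ^ p := by
      intro x i
      have h1 : (∑' j, ‖x j i‖ₑ ^ p) ^ (1 / p) ≤ weakNorm 𝕜 p x :=
        le_iSup (fun φ : {φ : L 𝕜 P →L[𝕜] 𝕜 // ‖φ‖ ≤ 1} => (∑' j, ‖φ.1 (x j)‖ₑ ^ p) ^ (1 / p))
          ⟨lp.evalCLM 𝕜 (fun _ : ℕ => 𝕜) P i, eval_norm_le i⟩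
      calc ∑' j, ‖x j i‖ₑ ^ p = ((∑' j, ‖x j i‖ₑ ^ p) ^ (1 / p)) ^ p := by
            rw [← ENNReal.rpow_mul, one_div_mul_cancel hp0.ne', ENNReal.rpow_one]
        _ ≤ _ := by gcongr
    intro k
    refine ⟨1, fun a x _ => ?_⟩
    rw [ENNReal.coe_one, one_mul]
    fin_cases k
    · have h := sum_mul hp0 hP (a 1) x (weakNorm 𝕜 p x) (hW x)
      have he : ∏ i ∈ Finset.univ.erase (0 : Fin 2), ‖a i‖ₑ = ‖a 1‖ₑ := by
        rw [show Finset.univ.erase (0 : Fin 2) = {1} by decide, Finset.prod_singleton]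
      change _ ≤ weakNorm 𝕜 p x * ∏ i ∈ Finset.univ.erase (0 : Fin 2), ‖a i‖ₑ
      rw [he]
      refine le_trans (le_of_eq ?_) h
      congr 1
    · have h := sum_mul hp0 hP (a 0) x (weakNorm 𝕜 p x) (hW x)
      have he : ∏ i ∈ Finset.univ.erase (1 : Fin 2), ‖a i‖ₑ = ‖a 0‖ₑ := by
        rw [show Finset.univ.erase (1 : Fin 2) = {0} by decide, Finset.prod_singleton]
      change _ ≤ weakNorm 𝕜 p x * ∏ i ∈ Finset.univ.erase (1 : Fin 2), ‖a i‖ₑ
      rw [he]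
      refine le_trans (le_of_eq ?_) h
      congr 1
      apply tsum_congr
      intro j
      rw [Q101.Strongly.mul_comm']
      rfl
  · rintro ⟨C, hC⟩
    have key : ∀ m : ℕ, 0 < m → (m : ℝ) ^ (1 / p) ≤ C * (m : ℝ) ^ (4 / p ^ 2) := by
      intro m hm
      have hm0 : (0 : ℝ) ≤ m := by positivity
      have h1 := hC m (fun _ j => e 𝕜 P j)
      have h2 : ((m : ℝ≥0∞)) ^ (1 / p) ≤
          (∑ j : Fin 2 → Fin m, ‖T 𝕜 P (fun k => e 𝕜 P (j k))‖ₑ ^ p) ^ (1 / p) := by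
        gcongr
        exact diag_bound m
      have h3 : (⨆ φ : {φ : ContinuousMultilinearMap 𝕜 (fun _ : Fin 2 => L 𝕜 P) 𝕜 // ‖φ‖ ≤ 1},
          (∑ j : Fin 2 → Fin m, ‖φ.1 (fun k => e 𝕜 P (j k))‖ₑ ^ p) ^ (1 / p)) ≤
          ENNReal.ofReal ((m : ℝ) ^ (4 / p ^ 2)) := by
        apply iSup_le
        intro φ
        calc (∑ j : Fin 2 → Fin m, ‖φ.1 (fun k => e 𝕜 P (j k))‖ₑ ^ p) ^ (1 / p)
            ≤ (ENNReal.ofReal ((m : ℝ) ^ (4 / p))) ^ (1 / p) := by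
              gcongr
              exact form_bound (by linarith) hP m φ.2
          _ = ENNReal.ofReal ((m : ℝ) ^ (4 / p ^ 2)) := by
              rw [ENNReal.ofReal_rpow_of_nonneg (by positivity) (by positivity),
                ← Real.rpow_mul hm0]
              congr 2
              field_simp
      have h4 : ((m : ℝ≥0∞)) ^ (1 / p) ≤ C * ENNReal.ofReal ((m : ℝ) ^ (4 / p ^ 2)) :=
        h2.trans (h1.trans (by gcongr))
      have h5 : ((m : ℝ≥0∞)) ^ (1 / p) = ENNReal.ofReal ((m : ℝ) ^ (1 / p)) := by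
        rw [← ENNReal.ofReal_rpow_of_nonneg hm0 (by positivity), ENNReal.ofReal_natCast]
      have h6 : (C : ℝ≥0∞) * ENNReal.ofReal ((m : ℝ) ^ (4 / p ^ 2)) =
          ENNReal.ofReal (C * (m : ℝ) ^ (4 / p ^ 2)) := by
        rw [ENNReal.ofReal_mul (NNReal.coe_nonneg C), ENNReal.ofReal_coe_nnreal]
      rw [h5, h6] at h4
      exact (ENNReal.ofReal_le_ofReal_iff (by positivity)).1 h4
    have hs : 0 < 1 / p - 4 / p ^ 2 := by
      have : 1 / p - 4 / p ^ 2 = (p - 4) / p ^ 2 := by field_simp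
      rw [this]
      apply div_pos (by linarith) (by positivity)
    have key2 : ∀ m : ℕ, 0 < m → (m : ℝ) ^ (1 / p - 4 / p ^ 2) ≤ C := by
      intro m hm
      have hm0 : (0 : ℝ) < m := by exact_mod_cast hm
      rw [Real.rpow_sub hm0, div_le_iff₀ (by positivity)]
      exact key m hm
    have ht : Filter.Tendsto (fun m : ℕ => (m : ℝ) ^ (1 / p - 4 / p ^ 2)) Filter.atTop
        Filter.atTop := (tendsto_rpow_atTop hs).comp tendsto_natCast_atTop_atTop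
    obtain ⟨m, hm1, hm2⟩ := ((ht.eventually_gt_atTop (C : ℝ)).and
      (Filter.eventually_gt_atTop 0)).exists
    exact absurd (key2 m hm2) (not_le.2 hm1)

end Pool.Agent.Results.MP_3dc8bf_an.QuasiNotStrongly
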